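import Pool.Agent.H572R4.QB.Units

/-!
# Quasi-polynomial Aaronson-Ambainis inequality for all functions on the discrete cube
-/

set_option autoImplicit false

namespace Pool.Agent.Results.MP_f992e4_an.AllPolynomials

theorem result :
    ∃ C : ℝ, 0 < C ∧ ∀ (n : ℕ) (f : (Fin n → ℤˣ) → ℝ) (d : ℕ), 1 ≤ d →
      (∀ S : Finset (Fin n), d < S.card →
        ∑ x : Fin n → ℤˣ, f x * ∏ i ∈ S, ((x i : ℤ) : ℝ) = 0) →
      0 < (∑ x : Fin n → ℤˣ, f x ^ 2) / (2 : ℝ) ^ n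
          - ((∑ x : Fin n → ℤˣ, f x) / (2 : ℝ) ^ n) ^ 2 →
      (⨆ x : Fin n → ℤˣ, |f x|) *
        (((∑ x : Fin n → ℤˣ, f x ^ 2) / (2 : ℝ) ^ n
          - ((∑ x : Fin n → ℤˣ, f x) / (2 : ℝ) ^ n) ^ 2)
            / (4 * (d : ℝ) * (⨆ x : Fin n → ℤˣ, |f x|) ^ 2)) ^ (C * Real.log (2 * (d : ℝ)))
      ≤ ⨆ j : Fin n, Real.sqrt
            ((∑ x : Fin n → ℤˣ,
                ((f (Function.update x j 1) - f (Function.update x j (-1))) / 2) ^ 2)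
              / (2 : ℝ) ^ n) :=
  Pool.Agent.H572R4.QA.main04

end Pool.Agent.Results.MP_f992e4_an.AllPolynomials
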