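import Pool.Agent.H746R2.AA.Strong

/-!
# The strengthened Aaronson-Ambainis inequality for mixtures of juntas and low degree functions

`f` has degree at most `d` and is approximated in `L²`, up to half of its variance, by
`∑ a, J a * Q a`, where `J a` depends on at most `k` coordinates and `Q a` is a function of degree
at most `r` with values in `[-1,1]`.  With `Λ = ∑ a, ‖J a‖₁`,
`Var f ≤ (12 k d √(Λ ‖f‖_∞) + 8 r² 3^r Λ) · max_j ‖D_j f‖₂`.

Idea: covering each coordinate with small total weight, the sets of coordinates read by the juntas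
can be planted disjointly, and a block version of the Markov brothers' inequality shows that
planting them hardly changes the mean of `f`; the few coordinates that are covered with large
weight are averaged out at a cost controlled by the influences.
-/

set_option autoImplicit false

namespace Pool.Agent.Results.MP_f992e4_an.JuntaMixture

open Pool.Agent.H746R2.AA

theorem result {ι κ : Type*} [Fintype ι] [DecidableEq ι] [Fintype κ]
    (d k r : ℕ) (f : (ι → ℤˣ) → ℝ)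
    (hdeg : ∀ S : Finset ι, d < S.card → ∑ x : ι → ℤˣ, f x * ∏ i ∈ S, ((x i : ℤ) : ℝ) = 0)
    -- the mixture
    (C : κ → Finset ι) (hC : ∀ a, (C a).card ≤ k)
    (J Q : κ → (ι → ℤˣ) → ℝ)
    (hJ : ∀ a x y, (∀ i ∈ C a, x i = y i) → J a x = J a y)
    (hQ : ∀ a x, |Q a x| ≤ 1)
    (hQdeg : ∀ a, ∀ S : Finset ι, r < S.card →
      ∑ x : ι → ℤˣ, Q a x * ∏ i ∈ S, ((x i : ℤ) : ℝ) = 0)
    -- `f` is approximated by the mixture up to half of its variance
    (hclose : (∑ x : ι → ℤˣ, (f x - ∑ a, J a x * Q a x) ^ 2) / (2 : ℝ) ^ Fintype.card ι ≤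
      ((∑ x : ι → ℤˣ, f x ^ 2) / (2 : ℝ) ^ Fintype.card ι
        - ((∑ x : ι → ℤˣ, f x) / (2 : ℝ) ^ Fintype.card ι) ^ 2) / 2) :
    (∑ x : ι → ℤˣ, f x ^ 2) / (2 : ℝ) ^ Fintype.card ι
        - ((∑ x : ι → ℤˣ, f x) / (2 : ℝ) ^ Fintype.card ι) ^ 2 ≤
      (12 * k * d * Real.sqrt
          ((∑ a, (∑ x : ι → ℤˣ, |J a x|) / (2 : ℝ) ^ Fintype.card ι) * ⨆ x : ι → ℤˣ, |f x|)
        + 8 * (r : ℝ) ^ 2 * 3 ^ r * ∑ a, (∑ x : ι → ℤˣ, |J a x|) / (2 : ℝ) ^ Fintype.card ι) *
      ⨆ j : ι, Real.sqrt ((∑ x : ι → ℤˣ,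
          ((f (Function.update x j 1) - f (Function.update x j (-1))) / 2) ^ 2)
            / (2 : ℝ) ^ Fintype.card ι) := by
  classical
  have hfc : ∀ g : (ι → ℤˣ) → ℝ, ∀ m : ℕ, (∀ S : Finset ι, m < S.card →
      ∑ x : ι → ℤˣ, g x * ∏ i ∈ S, ((x i : ℤ) : ℝ) = 0) →
      ∀ S : Finset ι, m < S.card → Pool.Agent.H722R2.AA.fc g S = 0 := by
    intro g m hg S hS
    unfold Pool.Agent.H722R2.AA.fc Pool.Agent.H722R2.AA.sg
    rw [hg S hS, zero_div]
  have hvar : (∑ x : ι → ℤˣ, f x ^ 2) / (2 : ℝ) ^ Fintype.card ι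
        - ((∑ x : ι → ℤˣ, f x) / (2 : ℝ) ^ Fintype.card ι) ^ 2 = Cov f f := by
    unfold Cov Ex
    simp_rw [← sq]
  rw [hvar] at hclose ⊢
  refine strong_mix_deg d f (hfc f d hdeg) (⨆ x : ι → ℤˣ, |f x|) ?_ k r C hC J Q hJ hQ
    (fun a => hfc (Q a) r (hQdeg a)) ?_ _ ?_ ?_
  · intro x
    exact le_ciSup (f := fun x : ι → ℤˣ => |f x|) (Set.finite_range _).bddAbove x
  · exact hclose
  · intro l
    exact le_ciSup (f := fun j : ι => Real.sqrt ((∑ x : ι → ℤˣ,
          ((f (Function.update x j 1) - f (Function.update x j (-1))) / 2) ^ 2)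
            / (2 : ℝ) ^ Fintype.card ι)) (Set.finite_range _).bddAbove l
  · exact Real.iSup_nonneg fun j => Real.sqrt_nonneg _

end Pool.Agent.Results.MP_f992e4_an.JuntaMixture
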