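import Pool.Agent.H703R2.AB.Alg
import Pool.Agent.H703R3.QS.PowFinal

/-!
# A nearly linear Aaronson-Ambainis inequality for all quantum algorithms

A quantum query algorithm makes `T` queries.  Its classical record (the list of all measurement
outcomes and coin tosses so far, most recent outcome first) is unbounded; the quantum state kept
from one query to the next has an arbitrary dimension `M`.  After the record `h` it applies an
arbitrary isometry `V h` into an arbitrarily large workspace with basis `B`, then the phase query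
(the basis state `b` is multiplied by `x_i` if `pos h b = some i`, and by `1` if `pos h b = none`),
and then an arbitrary instrument with Kraus operators `K h w`, which map back to dimension `M` and
produce the classical outcome `w`.  The (subnormalised) state after the record `h` is `A h x`, its
squared norm is the probability of the record `h` on input `x`, and `f x` is the acceptance
probability on input `x`, when a transcript `a` is accepted with probability `g a`.

For every integer `m ≥ 1`, `Var f ^ (1 + 1 / m) ≤ exp (4100 * 2 ^ m * log (4 T) ^ 2) * ‖D_i f‖₂`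
for some `i`.  The bound does not depend on `M`, `B` and `W`.
-/

set_option autoImplicit false

namespace Pool.Agent.Results.MP_f992e4_an.QuantumNearlyLinear

open Matrix Pool.Agent.H746R2.AA Pool.Agent.H703R2.AA Pool.Agent.H703R2.AB

theorem result {B W : Type*} [Fintype B] [DecidableEq B] [Fintype W] (n T M : ℕ)
    -- the algorithm
    (pos : List W → B → Option (Fin n))
    (V : List W → Matrix B (Fin M) ℂ) (hV : ∀ h, (V h)ᴴ * V h = 1)
    (K : List W → W → Matrix (Fin M) B ℂ) (hK : ∀ h, ∑ w, (K h w)ᴴ * K h w = 1)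
    (v : Fin M → ℂ) (hv : ∑ i, ‖v i‖ ^ 2 = 1)
    -- its state after a record
    (A : List W → (Fin n → ℤˣ) → Fin M → ℂ)
    (hA0 : ∀ x, A [] x = v)
    (hA : ∀ h w x, A (w :: h) x = K h w *ᵥ (fun b => (Option.elim (pos h b) 1
      (fun i => (((x i : ℤˣ) : ℤ) : ℂ))) * (V h *ᵥ A h x) b))
    -- its acceptance probability
    (g : (Fin T → W) → ℝ) (hg0 : ∀ a, 0 ≤ g a) (hg1 : ∀ a, g a ≤ 1)
    (f : (Fin n → ℤˣ) → ℝ)
    (hf : ∀ x, f x = ∑ a : Fin T → W, g a * ∑ i, ‖A (List.ofFn a) x i‖ ^ 2)
    -- the variance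
    (Var : ℝ) (hVar : Var = (∑ x, f x ^ 2) / 2 ^ n - ((∑ x, f x) / 2 ^ n) ^ 2)
    (hpos : 0 < Var) (m : ℕ) (hm : 1 ≤ m) :
    ∃ i : Fin n, Var ^ (1 + 1 / (m : ℝ))
      ≤ Real.exp (4100 * 2 ^ m * Real.log (4 * T) ^ 2)
        * Real.sqrt ((∑ x, ((f (Function.update x i 1) - f (Function.update x i (-1))) / 2) ^ 2)
          / 2 ^ n) := by
  classical
  set P := mkPr pos V K hV hK v hv with hP
  have hAP : ∀ h x, P.A h x = rv (A h x) := mkPr_A pos V K hV hK v hv A hA0 hA
  obtain ⟨g', hg'0, hg'1, hg'2⟩ := gext T g hg0 hg1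
  have hfP : f = P.out T g' := by
    funext x
    rw [hf]
    unfold Pr.out
    rw [S_eq_ofFn]
    refine Finset.sum_congr rfl fun a _ => ?_
    rw [hg'2, hAP, nsq_rv]
  have hcard : Fintype.card (Fin n) = n := Fintype.card_fin n
  have hEx : ∀ F : (Fin n → ℤˣ) → ℝ, (∑ x, F x) / 2 ^ n = Ex F := by
    intro F; unfold Ex; rw [hcard]
  have hVV : Var = Cov f f := by
    rw [hVar, hEx, hEx]
    unfold Cov
    simp_rw [← sq]
  have hInf : ∀ i, (∑ x, ((f (Function.update x i 1) - f (Function.update x i (-1))) / 2) ^ 2) / 2 ^ n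
      = Inf f i := by
    intro i
    rw [hEx]
    rfl
  have hT : 1 ≤ T := T_pos P T g' (by rw [← hfP, ← hVV]; exact hpos)
  have hV0 : 0 < Cov (P.out T g') (P.out T g') := by rw [← hfP, ← hVV]; exact hpos
  obtain ⟨b, rfl⟩ : ∃ b, m = b + 1 := ⟨m - 1, by omega⟩
  obtain ⟨i, hi⟩ := Pool.Agent.H703R3.QS.infl_lin P b T hT g' hg'0 hg'1 hV0
  refine ⟨i, ?_⟩
  rw [← hfP, ← hVV] at hi
  rw [hInf]
  set X := Real.exp (4100 * 2 ^ (b + 1) * Real.log (4 * T) ^ 2) * Real.sqrt (Inf f i) with hX
  have hX0 : 0 ≤ X := by positivity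
  have h1 := Real.rpow_le_rpow (by positivity) hi
    (by positivity : 0 ≤ (((b + 1 : ℕ) : ℝ))⁻¹)
  rw [Real.pow_rpow_inv_natCast hX0 (by omega), ← Real.rpow_natCast, ← Real.rpow_mul hpos.le] at h1
  refine le_trans (le_of_eq ?_) h1
  congr 1
  push_cast
  field_simp
  ring

end Pool.Agent.Results.MP_f992e4_an.QuantumNearlyLinear
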