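import Pool.Agent.H161R5.AASidon

/-!
# The strengthened Aaronson-Ambainis inequality for locally Sidon Fourier supports
-/

set_option autoImplicit false

namespace Pool.Agent.Results.MP_f992e4_an.SidonSupports

open Pool.Agent.H746R2.AA Pool.Agent.H722R2.AA Pool.Agent.H161R5.AA

variable {ι : Type} [Fintype ι] [DecidableEq ι]

/-- Fourier coefficient. -/
noncomputable def coef (f : (ι → ℤˣ) → ℝ) (S : Finset ι) : ℝ :=
  (∑ x : ι → ℤˣ, f x * ∏ i ∈ S, ((x i : ℤ) : ℝ)) / (2 : ℝ) ^ Fintype.card ι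

/-- Variance. -/
noncomputable def Var (f : (ι → ℤˣ) → ℝ) : ℝ :=
  (∑ x : ι → ℤˣ, f x ^ 2) / (2 : ℝ) ^ Fintype.card ι
    - ((∑ x : ι → ℤˣ, f x) / (2 : ℝ) ^ Fintype.card ι) ^ 2

/-- Supremum norm. -/
noncomputable def supNorm (f : (ι → ℤˣ) → ℝ) : ℝ := ⨆ x : ι → ℤˣ, |f x|

/-- The largest `L²` norm of a discrete derivative. -/
noncomputable def M (f : (ι → ℤˣ) → ℝ) : ℝ :=
  ⨆ j : ι, Real.sqrt ((∑ x : ι → ℤˣ,
    ((f (Function.update x j 1) - f (Function.update x j (-1))) / 2) ^ 2)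
      / (2 : ℝ) ^ Fintype.card ι)

/-- For every variable `l` the monomials of `f` containing `l` are coloured with `m + 1` colours:
those of colour `0` have degree at most `r`, and in each other colour class no four distinct
monomials satisfy `S₁ ∆ S₂ = S₃ ∆ S₄`. -/
def LocallySidon (f : (ι → ℤˣ) → ℝ) (r m : ℕ) : Prop :=
  ∀ l : ι, ∃ col : Finset ι → Fin (m + 1),
    (∀ S, l ∈ S → coef f S ≠ 0 → col S = 0 → S.card ≤ r) ∧
    ∀ S₁ S₂ S₃ S₄, l ∈ S₁ → l ∈ S₂ → l ∈ S₃ → l ∈ S₄ →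
      coef f S₁ ≠ 0 → coef f S₂ ≠ 0 → coef f S₃ ≠ 0 → coef f S₄ ≠ 0 →
      col S₁ ≠ 0 → col S₂ = col S₁ → col S₃ = col S₁ → col S₄ = col S₁ →
      S₁ ≠ S₂ → S₁ ≠ S₃ → S₁ ≠ S₄ → S₂ ≠ S₃ → S₂ ≠ S₄ → S₃ ≠ S₄ →
      symmDiff S₁ S₂ ≠ symmDiff S₃ S₄

theorem coef_eq (f : (ι → ℤˣ) → ℝ) (S : Finset ι) : coef f S = fc f S := rfl

theorem Var_eq (f : (ι → ℤˣ) → ℝ) : Var f = Cov f f := by
  unfold Var Cov Ex
  simp_rw [← sq]

theorem le_supNorm (f : (ι → ℤˣ) → ℝ) (x : ι → ℤˣ) : |f x| ≤ supNorm f :=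
  le_ciSup (f := fun x : ι → ℤˣ => |f x|) (Set.finite_range _).bddAbove x

theorem Inf_le_M (f : (ι → ℤˣ) → ℝ) (l : ι) : Real.sqrt (Inf f l) ≤ M f :=
  le_ciSup (f := fun j : ι => Real.sqrt ((∑ x : ι → ℤˣ,
          ((f (Function.update x j 1) - f (Function.update x j (-1))) / 2) ^ 2)
            / (2 : ℝ) ^ Fintype.card ι)) (Set.finite_range _).bddAbove l

theorem M_nonneg (f : (ι → ℤˣ) → ℝ) : 0 ≤ M f := Real.iSup_nonneg fun j => Real.sqrt_nonneg _

theorem flat_of {f : (ι → ℤˣ) → ℝ} {r m : ℕ} (h : LocallySidon f r m) (l : ι) :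
    Real.sqrt (Inf f l) ≤ (3 ^ r + 2 * m) * Ex (fun x => |D f l x|) := by
  obtain ⟨col, h0, hs⟩ := h l
  exact flat m r f l col h0 hs

theorem part2 (d m r : ℕ) (f : (ι → ℤˣ) → ℝ) (hd : ∀ S : Finset ι, d < S.card → coef f S = 0)
    (h : LocallySidon f r m) :
    Var f ≤ 2 * (3 ^ r + 2 * m) * (d : ℝ) ^ 2 * supNorm f * M f := by
  rw [Var_eq]
  refine (le_abs_self _).trans ?_
  exact Cov_flat d (3 ^ r + 2 * m) (supNorm f) (by positivity) f f hd (le_supNorm f)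
    (flat_of h) (M f) (Inf_le_M f) (M_nonneg f)

/-- **The strengthened Aaronson-Ambainis inequality for locally Sidon supports.** -/
theorem result :
    (∀ (ι : Type) [Fintype ι] [DecidableEq ι] (d m r : ℕ) (f : (ι → ℤˣ) → ℝ),
      (∀ S : Finset ι, d < S.card → coef f S = 0) → LocallySidon f r m →
        Var f ≤ 2 * (3 ^ r + 2 * m) * (d : ℝ) ^ 2 * supNorm f * M f) ∧
    (∀ (ι : Type) [Fintype ι] [DecidableEq ι] (e m r : ℕ) (f Q : (ι → ℤˣ) → ℝ),
      (∀ S : Finset ι, e < S.card → coef Q S = 0) → LocallySidon Q r m →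
      (∑ x : ι → ℤˣ, (f x - Q x) ^ 2) / (2 : ℝ) ^ Fintype.card ι ≤ Var f / 2 →
        Var f ≤ 8 * (3 ^ r + 2 * m) * (e : ℝ) ^ 2 * supNorm Q * M f) ∧
    (∀ (ι : Type) [Fintype ι] [DecidableEq ι] (d r : ℕ) (f : (ι → ℤˣ) → ℝ),
      (∀ S : Finset ι, d < S.card → coef f S = 0) →
      (∀ S T : Finset ι, coef f S ≠ 0 → coef f T ≠ 0 → S ≠ T → (S ∩ T).card ≤ r) →
        Var f ≤ 2 * (27 ^ r + 2) * (d : ℝ) ^ 2 * supNorm f * M f) := by
  refine ⟨fun ι _ _ d m r f hd h => part2 d m r f hd h, ?_, ?_⟩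
  · intro ι _ _ e m r f Q hd h hclose
    rw [Var_eq] at hclose ⊢
    exact robust e (3 ^ r + 2 * m) (supNorm Q) (by positivity) Q f hd (le_supNorm Q)
      (flat_of h) hclose (M f) (Inf_le_M f) (M_nonneg f)
  · intro ι _ _ d r f hd hint
    have h : LocallySidon f (3 * r) 1 := by
      intro l
      refine ⟨fun S => if S.card ≤ 3 * r then 0 else 1, ?_, ?_⟩
      · intro S _ _ hc
        by_contra hn
        simp only [if_neg hn] at hc
        exact absurd hc (by decide)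
      · intro S₁ S₂ S₃ S₄ _ _ _ _ c1 c2 c3 c4 h1 _ _ _ d12 d13 d14 _ _ _ heq
        have hn : ¬ S₁.card ≤ 3 * r := by
          intro hn
          exact h1 (if_pos hn)
        apply hn
        have hsub : S₁ ⊆ (S₁ ∩ S₂) ∪ ((S₁ ∩ S₃) ∪ (S₁ ∩ S₄)) := by
          intro x hx
          by_cases hx2 : x ∈ S₂
          · exact Finset.mem_union_left _ (Finset.mem_inter.2 ⟨hx, hx2⟩)
          · have : x ∈ symmDiff S₁ S₂ := Finset.mem_symmDiff.2 (Or.inl ⟨hx, hx2⟩)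
            rw [heq, Finset.mem_symmDiff] at this
            rcases this with h | h
            · exact Finset.mem_union_right _ (Finset.mem_union_left _
                (Finset.mem_inter.2 ⟨hx, h.1⟩))
            · exact Finset.mem_union_right _ (Finset.mem_union_right _
                (Finset.mem_inter.2 ⟨hx, h.1⟩))
        have k1 := Finset.card_le_card hsub
        have k2 := Finset.card_union_le (S₁ ∩ S₂) ((S₁ ∩ S₃) ∪ (S₁ ∩ S₄))
        have k3 := Finset.card_union_le (S₁ ∩ S₃) (S₁ ∩ S₄)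
        have l1 := hint S₁ S₂ c1 c2 d12
        have l2 := hint S₁ S₃ c1 c3 d13
        have l3 := hint S₁ S₄ c1 c4 d14
        omega
    have := part2 d 1 (3 * r) f hd h
    rw [pow_mul, show (3 : ℝ) ^ 3 = 27 by norm_num] at this
    simpa using this

end Pool.Agent.Results.MP_f992e4_an.SidonSupports
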